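import Mathlib
import Pool.Agent.H.MP_6e75db_lc.A

set_option autoImplicit false

namespace Pool.Agent.H.MP_2e4b78_lc

open Set Filter Function Cardinal Order Pool.Agent.H.MP_77d395_lc Pool.Agent.H.MP_6e75db_lc

/-- special subsets: countable unions of antichains -/
def Spc {T : Type} [PartialOrder T] (U : Set T) : Prop :=
  ∃ A : ℕ → Set T, (∀ n, IsAntichain (· ≤ ·) (A n)) ∧ U = ⋃ n, A n

/-- the ideal of nonstationary subsets of a tree -/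
def NST {T : Type} [PartialOrder T] [OrderBot T] (B : Set T) : Prop :=
  ∃ f : T → T, (∀ t ∈ B, t ≠ ⊥ → f t < t) ∧ ∀ s, Spc (B ∩ f ⁻¹' {s})

/-- normal ideals on omega one -/
def Nrm (J : Set (Set I)) : Prop :=
  IsLowerSet J ∧ (∀ X ∈ J, ∀ Y ∈ J, X ∪ Y ∈ J) ∧ Set.univ ∉ J ∧ (∀ a, {a} ∈ J) ∧
    ∀ X : I → Set I, (∀ a, X a ∈ J) → {b | ∃ a < b, b ∈ X a} ∈ J

/-- `J` is the ideal induced by a rooted tree of height omega one -/
def Rep (J : Set (Set I)) : Prop :=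
  ∃ (T : Type) (_ : PartialOrder T) (_ : OrderBot T) (h : T → I), Tr T h ∧ Surjective h ∧
    ∀ X, X ∈ J ↔ NST (h ⁻¹' X)

/-- Rado's conjecture in tree form -/
def RC : Prop := ∀ (T : Type) [PartialOrder T] (h : T → I), Tr T h → ¬ Spc (Set.univ : Set T) →
  ∃ U : Set T, #U ≤ ℵ₁ ∧ ¬ Spc U

/-- Jensen's diamond -/
def Dia : Prop := ∃ D : I → Set I, ∀ Y : Set I, IsStationary {δ | Y ∩ Iio δ = D δ}

variable {T : Type} [PartialOrder T] {h : T → I}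

theorem sp {U : Set T} : Spc U ↔ ∃ c : T → ℕ, ∀ s ∈ U, ∀ t ∈ U, s < t → c s ≠ c t := by
  refine ⟨fun ⟨A, a, e⟩ => ?_, fun ⟨c, a⟩ => ⟨fun n => U ∩ c ⁻¹' {n}, fun n s p t q e l =>
    a s p.1 t q.1 (l.lt_of_ne e) (p.2.trans q.2.symm), by ext; simp⟩⟩
  choose! c hc using fun t (p : t ∈ U) => mem_iUnion.1 (e ▸ p :)
  exact ⟨c, fun s p t q l g => a _ (hc s p) (g ▸ hc t q) l.ne l.le⟩

theorem mo {U V : Set T} (a : Spc U) (l : V ⊆ U) : Spc V :=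
  sp.2 ((sp.1 a).imp fun _ c s p t q => c s (l p) t (l q))

theorem iu {ι : Type} [Countable ι] {U : ι → Set T} (a : ∀ i, Spc (U i)) : Spc (⋃ i, U i) := by
  choose c hc using fun i => sp.1 (a i)
  obtain ⟨e, he⟩ := exists_injective_nat ι
  have : ∀ t, ∃ n : ℕ, t ∈ ⋃ i, U i → ∃ i, t ∈ U i ∧ n = (e i).pair (c i t) := fun t => by
    by_cases g : t ∈ ⋃ i, U i
    · exact let ⟨i, g⟩ := mem_iUnion.1 g; ⟨_, fun _ => ⟨i, g, rfl⟩⟩
    · exact ⟨0, fun c => (g c).elim⟩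
  choose k hk using this
  refine sp.2 ⟨k, fun s p t q l g => ?_⟩
  obtain ⟨i, i1, i2⟩ := hk s p
  obtain ⟨j, j1, j2⟩ := hk t q
  obtain ⟨e1, e2⟩ := Nat.pair_eq_pair.1 (i2.symm.trans (g.trans j2))
  obtain rfl := he e1
  exact hc i s i1 t j1 l e2

theorem un {U V : Set T} (a : Spc U) (b : Spc V) : Spc (U ∪ V) :=
  union_eq_iUnion ▸ iu fun i => by cases i <;> assumption

theorem lev (ht : Tr T h) (k : I) : Spc {t | h t ≤ k} :=
  let ⟨f, e⟩ := countable_iff_exists_injOn.1 (cI k)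
  sp.2 ⟨f ∘ h, fun _ p _ q l g => (ht.1 l).ne (e p q g)⟩

theorem nq [OrderBot T] {B : Set T} :
    NST B ↔ ∃ Q : T → Set T, (∀ s, Spc (Q s)) ∧ ∀ t ∈ B, t ≠ ⊥ → ∃ s < t, t ∈ Q s := by
  refine ⟨fun ⟨f, a, b⟩ => ⟨_, b, fun t p n => ⟨_, a t p n, p, rfl⟩⟩, fun ⟨Q, a, b⟩ => ?_⟩
  choose! f f1 f2 using b
  exact ⟨f, f1, fun s => mo (un (a s) (sp.2 ⟨fun _ => 0, fun _ p _ (q : _ = ⊥) l =>
    (not_lt_bot (q ▸ l)).elim⟩ : Spc {⊥})) fun t p => (em _).symm.imp_left fun n => p.2 ▸ f2 t p.1 n⟩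

open Classical in
theorem pd (ht : Tr T h) {U : Set T} (hU : IsLowerSet U) {Q : T → Set T} (a : ∀ s, Spc (Q s))
    (b : ∀ t ∈ U, (∃ s, s < t) → ∃ s < t, t ∈ Q s) : Spc U := by
  choose c hc using fun i => sp.1 (a i)
  choose! f f1 f2 using b
  have := ht.1.wellFoundedLT
  let k : T → ℕ := wellFounded_lt.fix fun t ih => if g : t ∈ U ∧ ∃ s, s < t then
    (c (f t) t).pair (ih (f t) (f1 t g.1 g.2)) + 1 else 0
  have e : ∀ t, k t = if t ∈ U ∧ ∃ s, s < t then (c (f t) t).pair (k (f t)) + 1 else 0 := fun t =>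
    wellFounded_lt.fix_eq _ t
  refine sp.2 ⟨k, fun s p t => ?_⟩
  induction t using WellFoundedLT.induction generalizing s with | _ t ih => ?_
  intro q l g
  rw [e, e t, if_pos (c := t ∈ U ∧ _) ⟨q, s, l⟩] at g
  split_ifs at g with m
  obtain ⟨e1, e2⟩ := Nat.pair_eq_pair.1 (Nat.succ_injective g)
  have l1 := (f1 s m.1 m.2).trans l
  have l2 := f1 t q ⟨s, l⟩
  by_cases n : f s = f t
  · exact hc _ s (n ▸ f2 s m.1 m.2) t (f2 t q ⟨s, l⟩) l (n ▸ e1)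
  exact (ht.2.1 t l1 l2 n).elim (fun g => ih _ l2 _ (hU l1.le q) (hU l2.le q) (g.lt_of_ne n) e2)
    fun g => ih _ l1 _ (hU l2.le q) (hU l1.le q) (g.lt_of_ne' n) e2.symm

theorem cc {α : Type} [LinearOrder α] [WellFoundedLT α] (hb : ∀ f : ℕ → α, ∃ b, ∀ n, f n < b)
    (S : α → Set α) (hS : ∀ a, ∃ b, ∀ γ ≤ a, ∀ x ∈ S γ, x < b) (o : α) :
    IsClub {δ | o < δ ∧ ∀ γ < δ, ∀ x ∈ S γ, x < δ} := by
  refine ⟨fun d h ⟨y, n⟩ _ a l => ⟨(h n).1.trans_le (l.1 n), fun γ g x p =>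
    let ⟨z, z1, z2⟩ := (lt_isLUB_iff l).1 g; ((h z1).2 γ z2 x p).trans_le (l.1 z1)⟩, fun a => ?_⟩
  choose g hg using hS
  obtain ⟨b, h1, hm⟩ := wellFounded_lt.has_min {b | ∀ n, g^[n] (max a o) < b} (hb _)
  refine ⟨b, ⟨(le_max_right _ _).trans_lt (h1 0), fun γ h x p => ?_⟩,
    (le_max_left _ _).trans (h1 0).le⟩
  obtain ⟨n, hn⟩ := not_forall.1 fun c => hm γ c h
  exact (hg _ _ (not_lt.1 hn) x p).trans (iterate_succ_apply' g n _ ▸ h1 (n + 1))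

open Classical in
theorem no (rc : RC) (hd : Dia) : ∃ J, Nrm J ∧ ¬ Rep J := by
  obtain ⟨D, hD⟩ := hd
  let P := (I → I → Prop) × (I → I)
  obtain ⟨Y⟩ := (le_def (Option P) (Set I)).1 (by
    have : (ℵ₁ : Cardinal.{0}) ^ (ℵ₁ : Cardinal.{0}) = 2 ^ ℵ₁ := power_self_eq (aleph0_le_aleph 1)
    have i : ℵ₀ ≤ (2 : Cardinal.{0}) ^ ℵ₁ := (aleph0_le_aleph 1).trans (cantor _).le
    simp [P, ← power_mul, this, mul_eq_self i, add_one_eq i])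
  obtain ⟨π⟩ := (le_def (I × ℕ × I) I).1 (by simp)
  let K : P → Set I → Prop := fun p X => ∃ (c : I → I → ℕ) (Q : I → Set I),
    (∀ s, ∀ a ∈ Q s, ∀ b ∈ Q s, p.1 a b → c s a ≠ c s b) ∧
      ∀ t, p.2 t ∈ X → (∃ s, p.1 s t) → ∃ s, p.1 s t ∧ t ∈ Q s
  let X : P → Set I := fun p => {δ | ∃ ξ < δ, ∃ n, ∀ η < δ, η ∈ Y (some p) ↔ π (ξ, n, η) ∈ D δ}
  let Z : P → Set I := fun p => if K p (X p) then (X p)ᶜ else X p
  let J : Set (Set I) := {A | ∃ (G : I → Set P) (g : I → I), (∀ ξ, (G ξ).Countable) ∧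
    ∀ δ ∈ A, o < δ → (∀ γ < δ, g γ < δ) → ∃ ξ < δ, ∃ p ∈ G ξ, δ ∈ Z p}
  have pr : Set.univ ∉ J := fun ⟨G, g, g1, g2⟩ => by
    choose q hq using fun ξ => ((((g1 ξ).mono (sep_subset _ fun p => K p (X p))).image
      some).insert none).exists_eq_range (insert_nonempty _ _)
    choose! w hw using fun a b (n : a ≠ b) => not_forall.1 fun c => n (Y.injective (ext c))
    have c1 : ∀ γ, (insert (g γ) (π '' (Iic γ ×ˢ Set.univ ×ˢ Iic γ) ∪ image2 w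
        (some '' ⋃ ζ ∈ Iic γ, G ζ) (⋃ ζ ∈ Iic γ, range (q ζ)))).Countable := fun γ =>
      ((((cI γ).prod (countable_univ.prod (cI γ))).image _).union (.image2 (((cI γ).biUnion
        fun ζ _ => g1 ζ).image _) ((cI γ).biUnion fun ζ _ => countable_range _) _)).insert _
    obtain ⟨δ, d1, d2, d3⟩ := hD {x | ∃ ξ n η, π (ξ, n, η) = x ∧ η ∈ Y (q ξ n)} (cc (fun f =>
      (bd (countable_range f)).imp fun b h n => h _ ⟨n, rfl⟩) _ (fun a => (bd ((cI a).biUnion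
        fun γ _ => c1 γ)).imp fun b h γ l x p => h x (mem_biUnion l p)) o)
    have e : ∀ ξ < δ, ∀ n, ∀ η < δ, π (ξ, n, η) ∈ D δ ↔ η ∈ Y (q ξ n) := fun ξ l n η m => by
      rw [← show _ = D δ from d1]
      refine ⟨fun ⟨⟨_, _, _, a, b⟩, _⟩ => ?_, fun b => ⟨⟨_, _, _, rfl, b⟩, d3 _ (max_lt l m) _
        (.inr (.inl ⟨(ξ, n, η), ⟨mem_Iic.2 (le_max_left ξ η), trivial, mem_Iic.2 (le_max_right ξ η)⟩, rfl⟩))⟩⟩
      obtain ⟨⟩ := π.injective a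
      exact b
    obtain ⟨ξ, l, p, p1, p2⟩ := g2 δ trivial d2 fun γ l => d3 γ l _ (.inl rfl)
    simp only [Z] at p2
    split_ifs at p2 with k
    · obtain ⟨n, hn⟩ := (hq ξ).subset (.inr ⟨p, ⟨p1, k⟩, rfl⟩)
      exact p2 ⟨ξ, l, n, fun η m => hn ▸ (e ξ l n η m).symm⟩
    obtain ⟨ζ, m, n, hn⟩ := p2
    have := d3 _ (max_lt l m) _ (.inr (.inr (mem_image2_of_mem ⟨p, mem_biUnion (mem_Iic.2
      (le_max_left _ _)) p1,
      rfl⟩ (mem_biUnion (mem_Iic.2 (le_max_right _ _)) ⟨n, rfl⟩))))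
    refine hw _ _ (fun c => ?_) ((hn _ this).trans (e ζ m n _ this))
    rcases (hq ζ).symm.subset ⟨n, c.symm⟩ with c | ⟨_, a, c⟩
    · cases c
    · exact k (Option.some_injective _ c ▸ a.2)
  refine ⟨J, ⟨fun A B l ⟨G, g, g1, g2⟩ => ⟨G, g, g1, fun δ p => g2 δ (l p)⟩,
    fun A ⟨G, g, g1, g2⟩ B ⟨G', g', g3, g4⟩ => ⟨fun ξ => G ξ ∪ G' ξ, fun γ => max (g γ) (g' γ),
      fun ξ => (g1 ξ).union (g3 ξ), fun δ p l c => p.elim (fun p => (g2 δ p l fun γ m =>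
        (max_lt_iff.1 (c γ m)).1).imp fun _ ⟨a, p, b, c⟩ => ⟨a, p, .inl b, c⟩) fun p => (g4 δ p l
          fun γ m => (max_lt_iff.1 (c γ m)).2).imp fun _ ⟨a, p, b, c⟩ => ⟨a, p, .inr b, c⟩⟩, pr,
    fun a => ⟨fun _ => ∅, fun _ => a, fun _ => countable_empty, fun δ p l c =>
      ((c o l).ne' p).elim⟩, fun A a => ?_⟩, fun ⟨T, _, _, h, ht, _, hJ⟩ => ?_⟩
  · choose G g g1 g2 using a
    choose k hk using fun γ => bd (((cI γ).image2 (cI γ) g))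
    refine ⟨fun ξ => ⋃ a ∈ Iic ξ, ⋃ b ∈ Iic ξ, G a b, k, fun ξ => (cI ξ).biUnion fun a _ =>
      (cI ξ).biUnion fun b _ => g1 a b, fun δ ⟨a, l, p⟩ m c => ?_⟩
    obtain ⟨ξ, x1, p, x2, x3⟩ := g2 a δ p m fun γ n => (hk _ _ (mem_image2_of_mem
      (le_max_left a γ) (le_max_right a γ))).trans (c _ (max_lt l n))
    exact ⟨_, max_lt l x1, p, mem_iUnion₂.2 ⟨_, mem_Iic.2 (le_max_left _ _), mem_iUnion₂.2
      ⟨_, mem_Iic.2 (le_max_right _ _), x2⟩⟩, x3⟩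
  obtain ⟨V, v1, v2⟩ := rc T h ht fun c => pr ((hJ _).2 (nq.2 ⟨_, fun _ => c, fun t _ n =>
    ⟨⊥, bot_lt_iff_ne_bot.2 n, trivial⟩⟩))
  let U := ⋃ t ∈ V, Iic t
  have u1 : IsLowerSet U := isLowerSet_iUnion₂ fun t _ => isLowerSet_Iic t
  have u2 : ¬ Spc U := fun c => v2 (mo c fun t p => mem_biUnion p self_mem_Iic)
  have u3 : ∀ t : T, (Iic t).Countable := fun t => by
    rw [← Iio_insert]
    exact (MapsTo.countable_of_injOn (f := h) (fun s l => mem_Iic.2 (ht.1 l).le) (fun s p u q g => by_contra fun n =>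
      (ht.2.1 t p q n).elim (fun l => (ht.1 (l.lt_of_ne n)).ne g) fun l =>
        (ht.1 (l.lt_of_ne' n)).ne' g) (cI (h t))).insert t
  obtain ⟨e⟩ := Cardinal.eq.1 (show #I = #U from le_antisymm (mkI ▸ not_lt.1 fun c => u2 (by
    obtain ⟨f, e⟩ := countable_iff_exists_injOn.1 (le_aleph0_iff_set_countable.1
      (lt_aleph_one_iff.1 c))
    exact sp.2 ⟨f, fun _ p _ q l g => l.ne (e p q g)⟩)) ((mk_biUnion_le _ _).trans (mkI ▸
      mul_le_of_le (aleph0_le_aleph 1) v1 (ciSup_le' fun t =>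
        (le_aleph0_iff_set_countable.2 (u3 _)).trans (aleph0_le_aleph 1)))))
  let j := invFun fun a => (e a).1
  have j1 : ∀ a, j (e a) = a := leftInverse_invFun (Subtype.val_injective.comp e.injective)
  let p : P := (fun a b => (e a).1 < e b, fun a => h (e a))
  have k1 : K p (Z p) := by
    obtain ⟨Q, q1, q2⟩ := nq.1 ((hJ (Z p)).1 ⟨fun _ => {p}, id, fun _ => countable_singleton _,
      fun δ a l _ => ⟨o, l, p, rfl, a⟩⟩)
    choose c hc using fun s => sp.1 (q1 s)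
    refine ⟨fun s a => c (e s) (e a), fun s => {a | (e a).1 ∈ Q (e s)}, fun s a x b y =>
      hc _ _ x _ y, fun t a ⟨s, l⟩ => ?_⟩
    obtain ⟨u, l, m⟩ := q2 _ a (ne_bot_of_gt l)
    exact ⟨e.symm ⟨u, u1 l.le (e t).2⟩, by simpa [p] using ⟨l, m⟩⟩
  have k2 : ∀ A, K p A → ∃ Q : T → Set T, (∀ s, Spc (Q s)) ∧
      ∀ t ∈ U, h t ∈ A → (∃ s, s < t) → ∃ s < t, t ∈ Q s := fun A ⟨c, Q, q1, q2⟩ => by
    refine ⟨fun u => (fun a => (e a).1) '' Q (j u), fun u => sp.2 ⟨fun t => c (j u) (j t), ?_⟩,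
      fun t u b ⟨s, l⟩ => ?_⟩
    · rintro _ ⟨a, x, rfl⟩ _ ⟨b, y, rfl⟩ l
      simpa only [j1] using q1 _ a x b y l
    obtain ⟨a, rfl⟩ : ∃ a, (e a).1 = t := ⟨e.symm ⟨t, u⟩, by simp⟩
    obtain ⟨s, x, y⟩ := q2 a b ⟨e.symm ⟨s, u1 l.le (e a).2⟩, by simpa [p] using l⟩
    exact ⟨e s, x, a, (j1 s).symm ▸ y, rfl⟩
  simp only [Z] at k1
  split_ifs at k1 with k
  · obtain ⟨Q, q1, q2⟩ := k2 _ k
    obtain ⟨R, r1, r2⟩ := k2 _ k1
    exact u2 (pd ht u1 (fun s => un (q1 s) (r1 s)) fun t a b => (Classical.em _).elim (fun c =>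
      (q2 t a c b).imp fun _ c => ⟨c.1, .inl c.2⟩) fun c => (r2 t a c b).imp fun _ c =>
        ⟨c.1, .inr c.2⟩)
  exact k k1

end Pool.Agent.H.MP_2e4b78_lc
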