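import Mathlib
import Pool.Agent.H.MP_2e4b78_lc.A

set_option autoImplicit false

namespace Pool.Agent.H.MP_2e4b78_lc

open Set Filter Function Cardinal Order Pool.Agent.H.MP_77d395_lc Pool.Agent.H.MP_6e75db_lc

abbrev W := (Ordinal.omega 2 : Ordinal.{0}).ToType

/-- a nonreflecting stationary set of ordinals of countable cofinality below omega two -/
def NR : Prop := ∃ E : Set W, IsStationary E ∧ (∀ γ ∈ E, cof (Iio γ) = ℵ₀) ∧
  ∀ α : W, ℵ₀ < cof (Iio α) → ¬ IsStationary ((↑) ⁻¹' E : Set (Iio α))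

theorem cW (a : W) : #(Iic a) ≤ ℵ₁ := by
  have := mk_Iic_lt a (by simp) (by simp)
  rw [← lt_succ_iff, succ_aleph, one_add_one_eq_two]
  simpa using this

theorem bW {s : Set W} (c : #s ≤ ℵ₁) : ∃ b, ∀ a ∈ s, a < b := by
  by_contra! n
  refine (show #(⋃ a ∈ s, Iic a) < #W from ((mk_biUnion_le _ _).trans (mul_le_of_le
    (aleph0_le_aleph 1) c (ciSup_le' fun t => cW _))).trans_lt (by simp)).ne ?_
  rw [eq_univ_of_forall fun b => let ⟨a, p, l⟩ := n b; mem_biUnion p (mem_Iic.2 l), mk_univ]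

instance : Nonempty W := let ⟨b, _⟩ := bW (s := ∅) (by simp); ⟨b⟩

theorem sig {J : Set (Set I)} (hJ : Nrm J) : {δ | ¬ IsSuccLimit δ} ∈ J ∧
    ∀ s : Set (Set I), s.Countable → s ⊆ J → ⋃₀ s ∈ J := by
  obtain ⟨j1, j2, -, j4, j5⟩ := hJ
  choose sc hs using fun a : I => exists_covBy_of_wellFoundedLT (a := a)
    (let ⟨b, h⟩ := bd (countable_singleton a); (h a rfl).not_isMax)
  have l : {δ | ¬ IsSuccLimit δ} ∈ J := j1 (fun δ d => by_contra fun c => d ⟨fun m => c (.inl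
    (le_antisymm (m (ol δ)) (ol δ))), fun a m => c (.inr ⟨a, m.1, m.unique_right (hs a)⟩)⟩)
      (j2 _ (j4 o) _ (j5 _ fun a => j4 (sc a)))
  refine ⟨l, fun s c p => ?_⟩
  obtain ⟨X, hX⟩ := (c.insert {o}).exists_eq_range (insert_nonempty _ _)
  have m : StrictMono fun n => sc^[n] o := strictMono_nat_of_lt_succ fun n =>
    (iterate_succ_apply' sc n o).symm ▸ (hs _).1
  refine j1 (fun δ ⟨A, a, d⟩ => (em _).symm.imp_right fun q : IsSuccLimit δ => ?_) (j2 _ l _ (j5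
    (fun a => X (invFun (fun n => sc^[n] o) a)) fun a => (hX.symm.subset ⟨_, rfl⟩).elim
      (fun e => e ▸ j4 o) fun e => p e))
  obtain ⟨n, rfl⟩ := hX.subset (.inr a)
  refine ⟨sc^[n] o, ?_, (leftInverse_invFun m.injective n).symm ▸ d⟩
  clear a d
  induction n with
  | zero => exact (ol δ).lt_of_ne fun e => q.1 (e ▸ fun b _ => ol b)
  | succ n ih =>
    exact iterate_succ_apply' sc n o ▸ ((hs _).ge_of_gt ih).lt_of_ne fun e => q.2 _ (e ▸ hs _)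

def F (E : Set W) (D : W → Set I) (g : I → W × I) (c : I) : Prop :=
  (g c).1 ∈ E ∧ (∀ d < c, (g d).1 < (g c).1 ∧ c ∉ D (g d).1) ∧ ∀ β < (g c).1, ∃ d < c, β < (g d).1

theorem cg {E : Set W} {D : W → Set I} {g k : I → W × I} {c : I} (e : ∀ d ≤ c, g d = k d)
    (a : (∃ d < c, c ≤ (g d).2) ∨ F E D g c) : (∃ d < c, c ≤ (k d).2) ∨ F E D k c :=
  a.imp (fun ⟨d, p, q⟩ => ⟨d, p, e d p.le ▸ q⟩) fun ⟨a, b, f⟩ => ⟨e c le_rfl ▸ a,
    fun d l => e c le_rfl ▸ e d l.le ▸ b d l, fun β l =>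
      let ⟨d, p, q⟩ := f β (e c le_rfl ▸ l); ⟨d, p, e d p.le ▸ q⟩⟩

@[ext] structure N (E : Set W) (D : W → Set I) where
  a : I
  g : I → W × I
  n : ∀ c, a ≤ c → g c = g a
  z : g o = Classical.arbitrary _
  l : ∀ c ≤ a, IsSuccLimit c → (∃ d < c, c ≤ (g d).2) ∨ F E D g c

variable {E : Set W} {D : W → Set I}

theorem ex {s t : N E D} (h : s.a = t.a) (e : ∀ c ≤ s.a, s.g c = t.g c) : s = t :=
  N.ext h (funext fun c => (le_total c s.a).elim (e c) fun g => (s.n c g).trans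
    ((e _ le_rfl).trans (h ▸ (t.n c (h ▸ g)).symm)))

instance : PartialOrder (N E D) where
  le s t := s.a ≤ t.a ∧ ∀ c ≤ s.a, s.g c = t.g c
  le_refl _ := ⟨le_rfl, fun _ _ => rfl⟩
  le_trans _ _ _ h g := ⟨h.1.trans g.1, fun c e => (h.2 c e).trans (g.2 c (e.trans h.1))⟩
  le_antisymm _ _ h g := ex (h.1.antisymm g.1) h.2

noncomputable instance : OrderBot (N E D) where
  bot := ⟨o, fun _ => Classical.arbitrary _, fun _ _ => rfl, rfl, fun c l q =>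
    (q.1 fun b _ => l.trans (ol b)).elim⟩
  bot_le t := ⟨ol _, fun _ l => (l.antisymm (ol _)).symm ▸ t.z.symm⟩

theorem cm {s t u : N E D} (h : s ≤ u) (g : t ≤ u) (e : s.a ≤ t.a) : s ≤ t :=
  ⟨e, fun c l => (h.2 c l).trans (g.2 c (l.trans e)).symm⟩

theorem tr : Tr (N E D) N.a := by
  refine ⟨fun _ _ h => h.le.1.lt_of_ne fun e => h.ne (ex e h.le.2), fun t r p s q _ =>
    (le_total r.a s.a).imp (cm p.le q.le) (cm q.le p.le), fun t b l => ?_⟩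
  refine ⟨⟨b, fun c => t.g (min c b), fun c p => by simp [p], by simp [ol, t.z], fun c p q =>
    cg (fun d r => by rw [min_eq_left (r.trans p)]) (t.l c (p.trans l.le) q)⟩,
    lt_of_le_of_ne ⟨l.le, fun c p => congrArg t.g (min_eq_left p)⟩ fun e => l.ne
      (congrArg N.a e), rfl⟩

open Classical in
theorem xt (t : N E D) (b : I) (β : W) : ∃ s, t ≤ s ∧ b < s.a ∧ ∃ c ≤ s.a, (s.g c).1 = β := by
  obtain ⟨k, hk⟩ := bd ((countable_singleton b).insert t.a)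
  have l := hk _ (.inl rfl)
  refine ⟨⟨k, fun c => if c ≤ t.a then t.g c else (β, k), fun c p => by
    rw [if_neg l.not_ge, if_neg (l.trans_le p).not_ge], (if_pos (ol _)).trans t.z,
    fun c p q => (le_or_gt c t.a).elim (fun r => cg (fun d m => (if_pos (m.trans r)).symm)
      (t.l c r q)) fun r => ?_⟩, ⟨l.le, fun c p => (if_pos p).symm⟩, hk b (.inr rfl), k, le_rfl,
        congrArg Prod.fst (if_neg l.not_ge)⟩
  obtain ⟨d, d1, d2⟩ := (not_covBy_iff r).1 (q.2 _)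
  exact .inl ⟨d, d2, by simpa only [if_neg d1.not_ge] using p⟩

open Classical in
theorem lim (t : ℕ → N E D) (m : Monotone t) {δ : I} {γ : W} (hδ : IsSuccLimit δ) (hγ : γ ∈ E)
    (h1 : ∀ n, (t n).a < δ) (h2 : ∀ c < δ, ∃ n, c ≤ (t n).a)
    (h3 : ∀ n c, ((t n).g c).1 < γ ∧ δ ∉ D ((t n).g c).1)
    (h4 : ∀ β < γ, ∃ n, ∃ c ≤ (t n).a, β < ((t n).g c).1) : ∃ s : N E D, s.a = δ ∧ ∀ n, t n ≤ s := by
  choose! k hk using h2
  let g : I → W × I := fun c => if c < δ then (t (k c)).g c else (γ, o)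
  have e : ∀ n, ∀ c ≤ (t n).a, (t n).g c = g c := fun n c l => by
    have := l.trans_lt (h1 n)
    exact ((le_total n (k c)).elim (fun p => (m p).2 c l) fun p =>
      ((m p).2 c (hk c this)).symm).trans (if_pos this).symm
  have f : g δ = (γ, o) := if_neg (lt_irrefl _)
  refine ⟨⟨δ, g, fun c p => (if_neg p.not_gt).trans f.symm, (e 0 o (ol _)).symm.trans (t 0).z,
    fun c p q => p.eq_or_lt.elim (fun p => .inr ?_) fun p => cg (fun d l => e _ d (l.trans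
      (hk c p))) ((t _).l c (hk c p) q)⟩, rfl, fun n => ⟨(h1 n).le, e n⟩⟩
  subst p
  refine ⟨f ▸ hγ, fun d l => f ▸ e _ d (hk d l) ▸ h3 _ _, fun β l => ?_⟩
  obtain ⟨n, d, d1, d2⟩ := h4 β (f ▸ l :)
  exact ⟨d, d1.trans_lt (h1 n), e n d d1 ▸ d2⟩

theorem nr : ∃ k : N E D → I, ∀ t : N E D, t ≠ ⊥ → ¬ (IsSuccLimit t.a ∧ F E D t.g t.a) →
    ∃ s < t, t.a ≤ k s := by
  choose k hk using fun s : N E D => bd ((countable_singleton s.a).insert (s.g s.a).2)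
  refine ⟨k, fun t n c => ?_⟩
  by_cases q : IsSuccLimit t.a
  · obtain ⟨d, d1, d2⟩ := (t.l _ le_rfl q).resolve_right fun g => c ⟨q, g⟩
    obtain ⟨s, l, rfl⟩ := tr.2.2 t d d1
    exact ⟨s, l, d2.trans (l.le.2 _ le_rfl ▸ hk s _ (.inl rfl)).le⟩
  obtain ⟨d, d1⟩ := not_forall_not.1 fun g => q ⟨(tr.1 (bot_lt_iff_ne_bot.2 n)).not_isMin, g⟩
  obtain ⟨s, l, rfl⟩ := tr.2.2 t d d1.1
  exact ⟨s, l, d1.ge_of_gt (hk s _ (.inr rfl))⟩

theorem ind (hE : ∀ α : W, ℵ₀ < cof (Iio α) → ¬ IsStationary ((↑) ⁻¹' E : Set (Iio α))) (α : W) :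
    Spc {t : N E D | (IsSuccLimit t.a ∧ F E D t.g t.a) ∧ (t.g t.a).1 < α} := by
  induction α using WellFoundedLT.induction with | _ α ih => ?_
  rcases le_or_gt (cof (Iio α)) ℵ₀ with c | c
  · obtain ⟨S, s1, s2⟩ := exists_cof_eq (Iio α)
    have := (le_aleph0_iff_set_countable.1 (s2.trans_le c)).to_subtype
    refine mo (iu fun β : S => un (ih β.1 β.1.2) (sp.2 ⟨fun _ => 0, fun s p t q l _ =>
      (q.1.2.2.1 _ (tr.1 l)).1.ne (l.le.2 _ le_rfl ▸ p.2.trans q.2.symm)⟩ : Spc {t : N E D |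
        (IsSuccLimit t.a ∧ F E D t.g t.a) ∧ (t.g t.a).1 = β.1})) fun t p => ?_
    obtain ⟨β, b1, b2⟩ := s1 ⟨_, p.2⟩
    exact mem_iUnion.2 ⟨⟨β, b1⟩, (show (t.g t.a).1 ≤ β from b2).lt_or_eq.imp (⟨p.1, ·⟩) (⟨p.1, ·⟩)⟩
  obtain ⟨C, c1, c2⟩ := not_isStationary_iff.1 (hE α c)
  choose nx n1 n2 using c1.2
  obtain ⟨k, hk⟩ := nr (E := E) (D := D)
  refine mo (pd tr (U := {t | ∀ c ≤ t.a, (t.g c).1 < α}) (fun t s l p c m => l.2 c m ▸ p c
    (m.trans l.1)) (fun s => un (lev tr (k s)) (iu fun p : PLift ((s.g s.a).1 < α) => ih _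
      (nx ⟨_, p.1⟩).2)) fun t p ⟨s, l⟩ => ?_) fun t p c l => l.eq_or_lt.elim (· ▸ p.2) fun l =>
        (p.1.2.2.1 c l).1.trans p.2
  by_cases r : IsSuccLimit t.a ∧ F E D t.g t.a
  swap
  · exact (hk t (ne_bot_of_gt l) r).imp fun _ c => ⟨c.1, .inl c.2⟩
  obtain ⟨d, d1, d2⟩ : ∃ d, ∃ l : d < t.a, (t.g t.a).1 < nx ⟨_, p d l.le⟩ := by
    by_contra! n
    refine disjoint_left.1 c2 (show (⟨_, p _ le_rfl⟩ : Iio α) ∈ _ from r.2.1) (c1.isLUB_mem (t := {x | ∃ d,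
      ∃ l : d < t.a, x = nx ⟨_, p d l.le⟩}) (fun _ ⟨_, _, e⟩ => e ▸ n1 _) ⟨_, _, tr.1 l, rfl⟩
        ⟨fun _ ⟨d, l, e⟩ => e ▸ n d l, fun y q => not_lt.1 fun m => ?_⟩)
    obtain ⟨d, d1, d2⟩ := r.2.2.2 y m
    exact (show (t.g d).1 ≤ y from (n2 ⟨_, p d d1.le⟩).trans (q ⟨d, d1, rfl⟩)).not_gt d2
  obtain ⟨s, l, rfl⟩ := tr.2.2 t d d1
  have e := l.le.2 _ le_rfl
  exact ⟨s, l, .inr (mem_iUnion.2 ⟨⟨e ▸ p _ d1.le⟩, r, by simpa only [e] using d2⟩)⟩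

theorem ls {α : Type} (S : Set α) : #{l : List α | ∀ p ∈ l, p ∈ S} ≤ #(List S) :=
  (mk_le_mk_of_subset (t := range (List.map ((↑) : S → α))) fun l p =>
    ⟨l.attachWith (· ∈ S) p, List.attachWith_map_subtype_val p⟩).trans mk_range_le

open Classical in
theorem yes (hc : (2 : Cardinal.{0}) ^ ℵ₁ = ℵ_ 2) (hN : NR) (J : Set (Set I)) (hJ : Nrm J) :
    Rep J := by
  obtain ⟨E, e1, e2, e3⟩ := hN
  obtain ⟨s1, s2⟩ := sig hJ
  obtain ⟨j1, j2, j3, j4, j5⟩ := hJ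
  obtain ⟨i⟩ := (le_def J W).1 ((mk_set_le J).trans (by simp [hc]))
  have : Nonempty J := ⟨⟨_, s1⟩⟩
  let X : W → J := invFun i
  have : ∀ γ : W, ∃ σ : I → W, ∀ β ≤ γ, ∃ a, σ a = β := fun γ =>
    let ⟨j⟩ := (le_def (Iic γ) I).1 (mkI ▸ cW γ)
    have : Nonempty (Iic γ) := ⟨⟨γ, self_mem_Iic⟩⟩
    ⟨fun a => (invFun j a).1, fun β l => ⟨j ⟨β, l⟩, congrArg Subtype.val
      (leftInverse_invFun j.injective _)⟩⟩
  choose σ hσ using this
  choose! κ hκ using hσ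
  let D : W → Set I := fun γ => {b | ∃ a < b, b ∈ (X (σ γ a)).1}
  have B : ∀ Y, Y ∉ J → ¬ NST ((N.a : N E D → I) ⁻¹' Y) := fun Y hY ⟨f, f1, f2⟩ => by
    choose c hc using fun s => sp.1 (f2 s)
    have : ∀ (t : N E D) (p : W × I × ℕ), ∃ s, t ≤ s ∧ p.2.1 < s.a ∧ (∃ c ≤ s.a, (s.g c).1 = p.1) ∧
        ∀ u, s ≤ u → u.a ∈ Y → (f u).a = p.2.1 → c (f u) u = p.2.2 →
          s.a ∈ Y ∧ (f s).a = p.2.1 ∧ c (f s) s = p.2.2 := fun t p => by
      obtain ⟨s, a, b, d, d1, d2⟩ := xt t p.2.1 p.1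
      by_cases g : ∃ u, s ≤ u ∧ u.a ∈ Y ∧ (f u).a = p.2.1 ∧ c (f u) u = p.2.2
      · obtain ⟨u, l, g⟩ := g
        exact ⟨u, a.trans l, b.trans_le l.1, ⟨d, d1.trans l.1, l.2 d d1 ▸ d2⟩, fun _ _ _ _ _ => g⟩
      exact ⟨s, a, b, ⟨d, d1, d2⟩, fun u p q r w => (g ⟨u, p, q, r, w⟩).elim⟩
    choose st t1 t2 t3 t4 using this
    let nd : List (W × I × ℕ) → N E D := List.foldr (fun p t => st t p) ⊥
    obtain ⟨γ, g1, -, g2⟩ := e1 (cc (fun f => (bW (s := range f) ((le_aleph0_iff_set_countable.2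
      (countable_range f)).trans (aleph0_le_aleph 1))).imp fun b h n => h _ ⟨n, rfl⟩)
      (fun β => image2 (fun l c => ((nd l).g c).1) {l | ∀ p ∈ l, p ∈ Iic β ×ˢ Set.univ} Set.univ)
      (fun a => (bW (s := image2 (fun l c => ((nd l).g c).1) {l | ∀ p ∈ l, p ∈ Iic a ×ˢ Set.univ}
        Set.univ) (mk_image2_le.trans (mul_le_of_le (aleph0_le_aleph 1) ((ls _).trans
          (mk_list_le_max _ |>.trans (max_le (aleph0_le_aleph 1) (by
            simpa using mul_le_of_le (aleph0_le_aleph 1) (cW a) le_rfl)))) (by simp)))).imp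
        fun b h γ l x ⟨m, p, q⟩ => h x ⟨m, fun r w => ⟨(p r w).1.trans l, trivial⟩, q⟩)
      (Classical.arbitrary _))
    obtain ⟨S, u1, u2⟩ := exists_cof_eq (Iio γ)
    rw [e2 γ g1] at u2
    obtain ⟨y, rfl⟩ := (le_aleph0_iff_set_countable.1 u2.le).exists_eq_range
      (nonempty_coe_sort.1 (mk_ne_zero_iff.1 (u2 ▸ aleph0_ne_zero)))
    let L : I → Set (List (W × I × ℕ)) := fun ξ =>
      {l | ∀ p ∈ l, p ∈ range (fun n => (y n).1) ×ˢ Iic ξ ×ˢ Set.univ}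
    have cL : ∀ ξ, (L ξ).Countable := fun ξ => le_aleph0_iff_set_countable.1 ((ls _).trans (by
      have := ((countable_range fun n => (y n).1).prod ((cI ξ).prod
        (countable_univ (α := ℕ)))).to_subtype
      exact mk_le_aleph0))
    obtain ⟨δ, d1, d2⟩ := not_subset.1 fun g => hY (j1 g (j2 _ s1 _ (j5 (fun ξ => ⋃₀ ⋃ l ∈ L ξ,
      ⋃ c ∈ Iic (nd l).a, {{c}, D ((nd l).g c).1}) fun ξ => s2 _ ((cL ξ).biUnion fun l _ =>
        (cI _).biUnion fun c _ => (countable_singleton _).insert _) (iUnion₂_subset fun l _ =>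
          iUnion₂_subset fun c _ => pair_subset (j4 c) (j5 _ fun a => (X _).2)))))
    simp only [mem_union, mem_ofPred_eq, not_or, not_not, not_exists, not_and, mem_sUnion,
      mem_iUnion, forall_exists_index] at d2
    obtain ⟨d2, d3⟩ := d2
    have := ((cI δ).mono Iio_subset_Iic_self).to_subtype
    have := d2.nonempty_Iio.to_subtype
    obtain ⟨w, hw⟩ := exists_surjective_nat (Iio δ × ℕ)
    let l : ℕ → List (W × I × ℕ) := Nat.rec [] fun m l => (y m, (w m).1, (w m).2) :: l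
    have l1 : ∀ m, ∃ ξ < δ, l m ∈ L ξ ∧ ∃ β < γ, ∀ p ∈ l m, p ∈ Iic β ×ˢ Set.univ := fun m => by
      induction m with
      | zero => exact ⟨_, (w 0).1.2, fun _ h => (nomatch h), _, (y 0).2, fun _ h => nomatch h⟩
      | succ m ih =>
        obtain ⟨ξ, a, b, β, c, d⟩ := ih
        exact ⟨_, max_lt a (w m).1.2, List.forall_mem_cons.2 ⟨⟨⟨m, rfl⟩, mem_Iic.2 (le_max_right _ _),
          trivial⟩, fun p q => ⟨(b p q).1, mem_Iic.2 (le_max_of_le_left (b p q).2.1), trivial⟩⟩, _,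
          max_lt c (y m).2, List.forall_mem_cons.2 ⟨⟨mem_Iic.2 (le_max_right _ _), trivial⟩,
            fun p q => ⟨mem_Iic.2 (le_max_of_le_left (d p q).1), trivial⟩⟩⟩
    have l2 : ∀ m, (nd (l m)).a < δ := fun m => not_le.1 fun g =>
      let ⟨ξ, a, b, _⟩ := l1 m; d3 ξ a {δ} _ b δ g (.inl rfl) rfl
    obtain ⟨t, rfl, v⟩ := lim (fun m => nd (l m)) (monotone_nat_of_le_succ fun m => t1 _ _) d2 g1 l2
      (fun c g => let ⟨m, e⟩ := hw (⟨c, g⟩, 0); ⟨m + 1, ((congrArg (·.1.1) e).ge.trans_lt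
        (t2 (nd (l m)) (y m, (w m).1, (w m).2))).le⟩) (fun m c => by
          obtain ⟨ξ, a, b, β, p, q⟩ := l1 m
          refine ⟨g2 β p _ (mem_image2_of_mem q trivial), ?_⟩
          rcases le_total c (nd (l m)).a with r | r
          · exact d3 ξ a _ _ b c r (.inr rfl)
          · exact (nd (l m)).n c r ▸ d3 ξ a _ _ b _ self_mem_Iic (.inr rfl)) fun β g => by
      obtain ⟨β', q⟩ := not_forall.1 fun q : IsTop (⟨β, g⟩ : Iio γ) => (one_lt_aleph0).ne'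
        ((e2 γ g1).symm.trans (cof_eq_one_iff.2 ⟨_, q⟩))
      obtain ⟨_, ⟨m, rfl⟩, r⟩ := u1 β'
      exact ⟨m + 1, (t3 (nd (l m)) (y m, (w m).1, (w m).2)).imp fun c p =>
        ⟨p.1, (show β < y m from (not_le.1 q).trans_le r).trans_eq p.2.symm⟩⟩
    have n : ∀ u : N E D, ∀ b, b < u.a → u ≠ ⊥ := fun u b g e => (ol b).not_gt (e ▸ g :)
    have a := f1 t d1 (n t _ (l2 0))
    obtain ⟨m, e⟩ := hw (⟨_, tr.1 a⟩, c (f t) t)
    have e1 := congrArg (·.1.1) e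
    obtain ⟨p, q, r⟩ := t4 (nd (l m)) (y m, (w m).1, (w m).2) t (v (m + 1)) d1 e1.symm
      (congrArg (·.2) e).symm
    have b := (f1 _ p (n _ _ (t2 _ _))).le.trans (v (m + 1))
    have z := (cm b a.le (q.trans e1).le).antisymm (cm a.le b (q.trans e1).ge)
    exact hc _ _ ⟨p, z⟩ t ⟨d1, rfl⟩ ((v (m + 1)).lt_of_ne fun e => (l2 (m + 1)).ne
      (congrArg N.a e)) ((z ▸ r :).trans (congrArg (·.2) e))
  refine ⟨N E D, inferInstance, inferInstance, N.a, tr, fun b => by_contra fun g => B _ j3 (nq.2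
    ⟨_, fun _ => lev tr b, fun t _ n => ⟨⊥, bot_lt_iff_ne_bot.2 n, not_lt.1 fun l =>
      g ((tr.2.2 t b l).imp fun _ p => p.2)⟩⟩), fun Y => ⟨fun hY => ?_, fun c => by_contra fun g =>
        B Y g c⟩⟩
  obtain ⟨k, hk⟩ := nr (E := E) (D := D)
  obtain ⟨β, hβ⟩ := bW (s := {i ⟨Y, hY⟩}) (by simpa using one_le_aleph0.trans (aleph0_le_aleph 1))
  refine nq.2 ⟨_, fun s => un (lev tr (k s)) (un (ind e3 β) (lev tr (κ (s.g s.a).1 (i ⟨Y, hY⟩)))),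
    fun t p n => ?_⟩
  by_cases r : IsSuccLimit t.a ∧ F E D t.g t.a
  swap
  · exact (hk t n r).imp fun _ c => ⟨c.1, .inl c.2⟩
  rcases lt_or_ge (t.g t.a).1 β with l | l
  · exact ⟨⊥, bot_lt_iff_ne_bot.2 n, .inr (.inl ⟨r, l⟩)⟩
  obtain ⟨d, d1, d2⟩ := r.2.2.2 _ ((hβ _ rfl).trans_le l)
  obtain ⟨s, l, rfl⟩ := tr.2.2 t d d1
  refine ⟨s, l, .inr (.inr (not_lt.1 fun g => (r.2.2.1 _ d1).2 ⟨_, g, ?_⟩))⟩
  rw [l.le.2 _ le_rfl, hκ _ _ d2.le, show X _ = _ from leftInverse_invFun i.injective _]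
  exact p

end Pool.Agent.H.MP_2e4b78_lc
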